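import Pool.Agent.Q217.DTCS.Bounds

set_option autoImplicit false

open Filter Asymptotics
open scoped Topology

namespace Pool.Agent.Results.MP_ce738d_pr.GreedyMinusRandomLeaf

/-- the probability `q(m,i) = m / (2 h_{m-1} i (m-i))` that a clade of size `m` splits into
sub-clades of sizes `i` and `m - i`, where `h_k = ∑_{j<k} 1/(j+1)` -/
noncomputable def q (m i : ℕ) : ℝ :=
  (m : ℝ) / (2 * (∑ j ∈ Finset.range (m - 1), 1 / ((j : ℝ) + 1)) * ((i : ℝ) * ((m : ℝ) - i)))

/-- The probability that DTCS(n) is the ordered binary tree `t` with `n` leaves: the product over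
the internal nodes of `t` of the splitting probabilities of the clades of leaves below them. -/
noncomputable def prob : BinaryTree Unit → ℝ
  | BinaryTree.nil => 1
  | BinaryTree.node _ l r => q (l.numLeaves + r.numLeaves) l.numLeaves * prob l * prob r

/-- expectation of `f (DTCS(n))`; the sum is over the ordered binary trees with `n` leaves, that
is with `n - 1` internal nodes -/
noncomputable def expect (n : ℕ) (f : BinaryTree Unit → ℝ) : ℝ :=
  ∑ t ∈ BinaryTree.treesOfNumNodesEq (n - 1), prob t * f t

/-- the sum of the depths (numbers of edges from the root) of the leaves -/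
def leafDepthSum : BinaryTree Unit → ℕ
  | BinaryTree.nil => 0
  | BinaryTree.node _ l r =>
    (leafDepthSum l + l.numLeaves) + (leafDepthSum r + r.numLeaves)

/-- the mean depth of a uniformly random leaf of `t` -/
noncomputable def leafDepth (t : BinaryTree Unit) : ℝ := (leafDepthSum t : ℝ) / t.numLeaves

/-- the length of the greedy path of `t`, which moves into the larger sub-clade at each split;
mean value over the fair coins that are used when the two halves are equal -/
noncomputable def greedyLength : BinaryTree Unit → ℝ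
  | BinaryTree.nil => 0
  | BinaryTree.node _ l r =>
    1 + (if r.numLeaves < l.numLeaves then greedyLength l
      else if l.numLeaves < r.numLeaves then greedyLength r
      else (greedyLength l + greedyLength r) / 2)

theorem prob_eq (t : BinaryTree Unit) : prob t = Pool.Agent.Q217.DTCS.weight t := by
  induction t with
  | nil => rfl
  | node v l r hl hr =>
    simp only [prob, Pool.Agent.Q217.DTCS.weight, hl, hr]
    rfl

theorem leafDepthSum_eq (t : BinaryTree Unit) :
    leafDepthSum t = Pool.Agent.Q217.DTCS.leafDepthSum t := by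
  induction t with
  | nil => rfl
  | node v l r hl hr => simp only [leafDepthSum, Pool.Agent.Q217.DTCS.leafDepthSum, hl, hr]

theorem greedy_eq (t : BinaryTree Unit) : greedyLength t = Pool.Agent.Q217.DTCS.greedy t := by
  induction t with
  | nil => rfl
  | node v l r hl hr => simp only [greedyLength, Pool.Agent.Q217.DTCS.greedy, hl, hr]

theorem expect_leafDepth (N : ℕ) : expect (N + 1) leafDepth = Pool.Agent.Q217.DTCS.A N := by
  unfold expect Pool.Agent.Q217.DTCS.A Pool.Agent.Q217.DTCS.ex leafDepth
    Pool.Agent.Q217.DTCS.meanDepth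
  simp only [prob_eq, leafDepthSum_eq, Nat.add_sub_cancel]

theorem expect_greedy (N : ℕ) : expect (N + 1) greedyLength = Pool.Agent.Q217.DTCS.B N := by
  unfold expect Pool.Agent.Q217.DTCS.B Pool.Agent.Q217.DTCS.ex
  simp only [prob_eq, greedy_eq, Nat.add_sub_cancel]

/-- The difference of the mean length of the greedy path and the mean depth of a uniformly random
leaf of DTCS(n) is of order `log² n`. -/
theorem result :
    (fun n : ℕ => expect n greedyLength - expect n leafDepth) =Θ[atTop]
      (fun n : ℕ => (Real.log n) ^ 2) := by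
  obtain ⟨C, hC⟩ := Pool.Agent.Q217.DTCS.A_upper
  have hT : Tendsto (fun n : ℕ => Real.log (n : ℝ)) atTop atTop :=
    Real.tendsto_log_atTop.comp tendsto_natCast_atTop_atTop
  constructor
  · refine IsBigO.of_bound 10 ?_
    filter_upwards [eventually_ge_atTop 1, hT.eventually_ge_atTop (1 + 20 * |C|)] with n hn hL
    obtain ⟨N, rfl⟩ := Nat.exists_eq_add_of_le hn
    rw [add_comm 1 N] at *
    rw [expect_leafDepth, expect_greedy]
    have h1 := Pool.Agent.Q217.DTCS.A_nonneg N
    have h2 := Pool.Agent.Q217.DTCS.B_upper N
    have h3 := Pool.Agent.Q217.DTCS.B_lower N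
    have h4 := hC N
    push_cast at hL ⊢
    rw [Real.norm_eq_abs, Real.norm_eq_abs, abs_of_nonneg (sq_nonneg (Real.log ((N : ℝ) + 1)))]
    have h5 := abs_nonneg C
    have h6 := le_abs_self C
    have h7 : 20 * |C| ≤ (Real.log ((N : ℝ) + 1)) ^ 2 := by nlinarith
    rw [abs_le]
    constructor
    · nlinarith
    · linarith
  · refine IsBigO.of_bound 40 ?_
    filter_upwards [eventually_ge_atTop 1, hT.eventually_ge_atTop (1 + 40 * |C|)] with n hn hL
    obtain ⟨N, rfl⟩ := Nat.exists_eq_add_of_le hn
    rw [add_comm 1 N] at *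
    rw [expect_leafDepth, expect_greedy]
    have h3 := Pool.Agent.Q217.DTCS.B_lower N
    have h4 := hC N
    push_cast at hL ⊢
    rw [Real.norm_eq_abs, Real.norm_eq_abs, abs_of_nonneg (sq_nonneg (Real.log ((N : ℝ) + 1)))]
    have h5 := abs_nonneg C
    have h6 := le_abs_self C
    have h7 : 40 * |C| ≤ (Real.log ((N : ℝ) + 1)) ^ 2 := by nlinarith
    have h8 : (1 / 40) * (Real.log ((N : ℝ) + 1)) ^ 2 ≤
        Pool.Agent.Q217.DTCS.B N - Pool.Agent.Q217.DTCS.A N := by linarith
    have h9 := le_abs_self (Pool.Agent.Q217.DTCS.B N - Pool.Agent.Q217.DTCS.A N)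
    linarith

end Pool.Agent.Results.MP_ce738d_pr.GreedyMinusRandomLeaf
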